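import Pool.Agent.Helper91.SY.Goals

/-! # Packet SY-FP: a Hamiltonian flow preserves the form and its Hamiltonian -/

set_option autoImplicit false

open Set Filter Topology
open scoped ContDiff

namespace Pool.Agent.Helper32.SY

open Pool.Agent.Helper91.SY

theorem fp_ : StmtFP := by
  intro E _ _ _ B f X Φ hB hf hX hH hF
  have hinf : (∞ : WithTop ℕ∞) ≠ 0 := by simp
  have h2inf : (2 : WithTop ℕ∞) ≤ ∞ := WithTop.coe_le_coe.2 (le_top : (2 : ℕ∞) ≤ ⊤)
  have hBd : Differentiable ℝ B := hB.smooth.differentiable hinf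
  have hXd : Differentiable ℝ X := hX.differentiable hinf
  have hfd : Differentiable ℝ f := hf.differentiable hinf
  have hf1 : ContDiff ℝ ∞ (fderiv ℝ f) := hf.fderiv_right (m := ∞) (by simp)
  have hf1d : Differentiable ℝ (fderiv ℝ f) := hf1.differentiable hinf
  set G : ℝ × E → E := fun p => Φ p.1 p.2 with hG
  have hGs : ContDiff ℝ ∞ G := hF.smooth
  have hGd : Differentiable ℝ G := hGs.differentiable hinf
  have hG1 : ContDiff ℝ ∞ (fderiv ℝ G) := hGs.fderiv_right (m := ∞) (by simp)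
  have hG1d : Differentiable ℝ (fderiv ℝ G) := hG1.differentiable hinf
  have hanti : ∀ y a b, B y a b = -B y b a := by
    intro y a b
    have h1 := hB.alt y (a + b)
    have h2 := hB.alt y a
    have h3 := hB.alt y b
    simp only [map_add, add_apply] at h1
    linarith
  -- time derivative and space derivative through G
  have hin1 : ∀ (t : ℝ) (x : E), HasFDerivAt (fun y : E => ((t, y) : ℝ × E))
      (ContinuousLinearMap.inr ℝ ℝ E) x := by
    intro t x
    exact hasFDerivAt_prodMk_right t x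
  have hin2 : ∀ (t : ℝ) (x : E), HasDerivAt (fun s : ℝ => ((s, x) : ℝ × E)) ((1 : ℝ), (0 : E)) t := by
    intro t x
    exact (hasDerivAt_id t).prodMk (hasDerivAt_const t x)
  have hspace : ∀ (t : ℝ) (x u : E), fderiv ℝ (Φ t) x u = fderiv ℝ G (t, x) (0, u) := by
    intro t x u
    have h1 : HasFDerivAt (Φ t) ((fderiv ℝ G (t, x)).comp (ContinuousLinearMap.inr ℝ ℝ E)) x :=
      (hGd (t, x)).hasFDerivAt.comp x (hin1 t x)
    rw [h1.fderiv]
    simp
  have htime : ∀ (t : ℝ) (x : E), X (Φ t x) = fderiv ℝ G (t, x) (1, 0) := by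
    intro t x
    have h1 : HasDerivAt (G ∘ fun s : ℝ => ((s, x) : ℝ × E)) (fderiv ℝ G (t, x) (1, 0)) t :=
      HasFDerivAt.comp_hasDerivAt t (hGd (t, x)).hasFDerivAt (hin2 t x)
    exact (hF.deriv t x).unique h1
  have hsymm : ∀ (t : ℝ) (x : E) (a b : ℝ × E),
      fderiv ℝ (fderiv ℝ G) (t, x) a b = fderiv ℝ (fderiv ℝ G) (t, x) b a := by
    intro t x a b
    have h1 : IsSymmSndFDerivAt ℝ G (t, x) :=
      (hGs.contDiffAt).isSymmSndFDerivAt (by simp; exact h2inf)
    exact h1.eq a b
  have hsymf : ∀ (y a b : E), fderiv ℝ (fderiv ℝ f) y a b = fderiv ℝ (fderiv ℝ f) y b a := by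
    intro y a b
    have h1 : IsSymmSndFDerivAt ℝ f y := (hf.contDiffAt).isSymmSndFDerivAt (by simp; exact h2inf)
    exact h1.eq a b
  have hU : ∀ (t : ℝ) (x u : E), HasDerivAt (fun s => fderiv ℝ (Φ s) x u)
      (fderiv ℝ X (Φ t x) (fderiv ℝ (Φ t) x u)) t := by
    intro t x u
    have h1 : HasDerivAt (fun s => fderiv ℝ G (s, x)) (fderiv ℝ (fderiv ℝ G) (t, x) (1, 0)) t :=
      (hG1d (t, x)).hasFDerivAt.comp_hasDerivAt t (hin2 t x)
    have h2 : HasDerivAt (fun s => fderiv ℝ G (s, x) (0, u))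
        (fderiv ℝ (fderiv ℝ G) (t, x) (1, 0) (0, u)) t := by
      have h3 := h1.clm_apply (hasDerivAt_const t ((0 : ℝ), u))
      simpa using h3
    have h4 : (fun s => fderiv ℝ (Φ s) x u) = fun s => fderiv ℝ G (s, x) (0, u) := by
      funext s
      exact hspace s x u
    rw [h4]
    have h5 : fderiv ℝ (fderiv ℝ G) (t, x) (1, 0) (0, u)
        = fderiv ℝ X (Φ t x) (fderiv ℝ (Φ t) x u) := by
      rw [hsymm]
      have h6 : HasFDerivAt (fun y => fderiv ℝ G (t, y))
          ((fderiv ℝ (fderiv ℝ G) (t, x)).comp (ContinuousLinearMap.inr ℝ ℝ E)) x :=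
        (hG1d (t, x)).hasFDerivAt.comp x (hin1 t x)
      have h7 := h6.clm_apply (hasFDerivAt_const ((1 : ℝ), (0 : E)) x)
      have h8 : HasFDerivAt (Φ t) (fderiv ℝ (Φ t) x) x := by
        have h9 : HasFDerivAt (Φ t) ((fderiv ℝ G (t, x)).comp (ContinuousLinearMap.inr ℝ ℝ E)) x :=
          (hGd (t, x)).hasFDerivAt.comp x (hin1 t x)
        exact h9.differentiableAt.hasFDerivAt
      have h10 : HasFDerivAt (fun y => X (Φ t y)) ((fderiv ℝ X (Φ t x)).comp (fderiv ℝ (Φ t) x)) x :=
        (hXd (Φ t x)).hasFDerivAt.comp x h8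
      have h11 : (fun y => X (Φ t y)) = fun y => fderiv ℝ G (t, y) (1, 0) := by
        funext y
        exact htime t y
      rw [h11] at h10
      have h12 := congrArg (fun L : E →L[ℝ] E => L u) (h7.unique h10)
      simpa using h12
    rw [← h5]
    exact h2
  -- the differentiated Hamiltonian equation
  have hHam : ∀ y u v, fderiv ℝ B y u (X y) v + B y (fderiv ℝ X y u) v
      = fderiv ℝ (fderiv ℝ f) y u v := by
    intro y u v
    have h1 : (fun z => B z (X z)) = fderiv ℝ f := by
      funext z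
      ext w
      exact hH z w
    have h2 := (hBd y).hasFDerivAt.clm_apply (hXd y).hasFDerivAt
    rw [h1] at h2
    have h3 := congrArg (fun L : E →L[ℝ] E →L[ℝ] ℝ => L u v)
      (h2.unique (hf1d y).hasFDerivAt)
    simp only [add_apply, ContinuousLinearMap.comp_apply,
      ContinuousLinearMap.flip_apply] at h3
    linarith
  intro t
  constructor
  · intro x u v
    have hW : ∀ s, HasDerivAt (fun s => B (Φ s x) (fderiv ℝ (Φ s) x u) (fderiv ℝ (Φ s) x v)) 0 s := by
      intro s
      have h1 : HasDerivAt (B ∘ fun s => Φ s x) (fderiv ℝ B (Φ s x) (X (Φ s x))) s :=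
        HasFDerivAt.comp_hasDerivAt (l := B) (f := fun s => Φ s x) s (hBd (Φ s x)).hasFDerivAt
          (hF.deriv s x)
      have h2 := (h1.clm_apply (hU s x u)).clm_apply (hU s x v)
      have h3 := hHam (Φ s x) (fderiv ℝ (Φ s) x u) (fderiv ℝ (Φ s) x v)
      have h4 := hHam (Φ s x) (fderiv ℝ (Φ s) x v) (fderiv ℝ (Φ s) x u)
      have h5 := hB.closed (Φ s x) (X (Φ s x)) (fderiv ℝ (Φ s) x u) (fderiv ℝ (Φ s) x v)
      have h6 := hsymf (Φ s x) (fderiv ℝ (Φ s) x u) (fderiv ℝ (Φ s) x v)
      have h7 := hanti (Φ s x) (fderiv ℝ (Φ s) x u)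
        (fderiv ℝ X (Φ s x) (fderiv ℝ (Φ s) x v))
      refine h2.congr_deriv ?_
      simp only [add_apply, Function.comp_apply]
      linarith
    have hc := is_const_of_deriv_eq_zero (fun s => (hW s).differentiableAt)
      (fun s => (hW s).deriv) t 0
    have h0 : Φ 0 = id := by
      funext y
      exact hF.zero y
    have h1 : fderiv ℝ (Φ 0) x = ContinuousLinearMap.id ℝ E := by
      rw [h0]
      exact fderiv_id
    simp only [h1, hF.zero, ContinuousLinearMap.id_apply] at hc
    exact hc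
  · intro x
    have hW : ∀ s, HasDerivAt (fun s => f (Φ s x)) 0 s := by
      intro s
      have h1 : HasDerivAt (f ∘ fun s => Φ s x) (fderiv ℝ f (Φ s x) (X (Φ s x))) s :=
        HasFDerivAt.comp_hasDerivAt s (hfd (Φ s x)).hasFDerivAt (hF.deriv s x)
      refine h1.congr_deriv ?_
      rw [← hH, hB.alt]
    have hc := is_const_of_deriv_eq_zero (fun s => (hW s).differentiableAt)
      (fun s => (hW s).deriv) t 0
    simp only [hF.zero] at hc
    exact hc

end Pool.Agent.Helper32.SY
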