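import Pool.Agent.Helper91.SY.Goals

/-! # Packet SY-MS: a function which does not increase along g is invariant -/

set_option autoImplicit false

open Set Filter Topology MeasureTheory
open scoped ContDiff

namespace Pool.Agent.Helper32.SY

open Pool.Agent.Helper91.SY

section
variable {E : Type} [NormedAddCommGroup E] [NormedSpace ℝ E] [FiniteDimensional ℝ E]

/-- Gram matrix -/
noncomputable def gram (A : E →L[ℝ] E →L[ℝ] ℝ) :
    Matrix (Fin (Module.finrank ℝ E)) (Fin (Module.finrank ℝ E)) ℝ :=
  Matrix.of fun i j => A (Module.finBasis ℝ E i) (Module.finBasis ℝ E j)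

noncomputable def dens (A : E →L[ℝ] E →L[ℝ] ℝ) : ℝ := Real.sqrt |(gram A).det|

theorem gram_pull (A A' : E →L[ℝ] E →L[ℝ] ℝ) (T : E →L[ℝ] E)
    (h : ∀ u v, A' (T u) (T v) = A u v) :
    gram A = (LinearMap.toMatrix (Module.finBasis ℝ E) (Module.finBasis ℝ E)
        (T : E →ₗ[ℝ] E)).transpose * gram A' *
      LinearMap.toMatrix (Module.finBasis ℝ E) (Module.finBasis ℝ E) (T : E →ₗ[ℝ] E) := by
  set b := Module.finBasis ℝ E with hb
  set a := LinearMap.toMatrix b b (T : E →ₗ[ℝ] E) with ha
  have hT : ∀ j, T (b j) = ∑ k, a k j • b k := by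
    intro j
    have h1 := (b.sum_repr (T (b j))).symm
    rw [h1]
    refine Finset.sum_congr rfl fun k _ => ?_
    rw [ha, LinearMap.toMatrix_apply]
    simp
  ext i j
  have h1 : gram A i j = A' (T (b i)) (T (b j)) := by
    rw [h]
    rfl
  rw [h1, hT i, hT j, Matrix.mul_apply]
  simp only [map_sum, map_smul, ContinuousLinearMap.sum_apply, ContinuousLinearMap.smul_apply,
    smul_eq_mul, Matrix.mul_apply, Matrix.transpose_apply, Finset.sum_mul, Finset.mul_sum]
  refine Finset.sum_congr rfl fun k _ => Finset.sum_congr rfl fun l _ => ?_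
  have h2 : gram A' l k = A' (b l) (b k) := rfl
  rw [h2]
  ring

theorem dens_pull (A A' : E →L[ℝ] E →L[ℝ] ℝ) (T : E →L[ℝ] E)
    (h : ∀ u v, A' (T u) (T v) = A u v) : |T.det| * dens A' = dens A := by
  have h1 : (gram A).det = T.det ^ 2 * (gram A').det := by
    rw [gram_pull A A' T h, Matrix.det_mul, Matrix.det_mul, Matrix.det_transpose,
      LinearMap.det_toMatrix]
    have : LinearMap.det (T : E →ₗ[ℝ] E) = T.det := rfl
    rw [this]
    ring
  unfold dens
  rw [h1, abs_mul, Real.sqrt_mul (abs_nonneg _), abs_pow, Real.sqrt_sq (abs_nonneg _)]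

theorem dens_pos (A : E →L[ℝ] E →L[ℝ] ℝ) (h : ∀ u, (∀ v, A u v = 0) → u = 0) :
    0 < dens A := by
  unfold dens
  apply Real.sqrt_pos.2
  rw [abs_pos]
  intro h0
  obtain ⟨v, hv0, hv⟩ := Matrix.exists_vecMul_eq_zero_iff.2 h0
  set b := Module.finBasis ℝ E with hb
  have h1 : ∑ i, v i • b i = 0 := by
    apply h
    have h2 : A (∑ i, v i • b i) = 0 := by
      have h3 : ((A (∑ i, v i • b i) : E →L[ℝ] ℝ) : E →ₗ[ℝ] ℝ) = 0 := by
        apply b.ext
        intro j
        have h4 := congrFun hv j
        simp only [Matrix.vecMul, dotProduct, Pi.zero_apply] at h4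
        simp only [map_sum, map_smul, ContinuousLinearMap.coe_coe, ContinuousLinearMap.sum_apply,
          ContinuousLinearMap.smul_apply, smul_eq_mul, LinearMap.zero_apply]
        exact h4
      ext w
      exact congrArg (fun L : E →ₗ[ℝ] ℝ => L w) h3
    intro w
    rw [h2]
    rfl
  apply hv0
  funext i
  have h5 := congrArg (fun x => b.repr x i) h1
  simpa [Finsupp.single_apply] using h5

theorem dens_cont {B : E → E →L[ℝ] E →L[ℝ] ℝ} (hB : Continuous B) :
    Continuous fun x => dens (B x) := by
  unfold dens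
  refine Real.continuous_sqrt.comp (continuous_abs.comp ?_)
  refine Continuous.matrix_det ?_
  unfold gram
  refine continuous_matrix fun i j => ?_
  simp only [Matrix.of_apply]
  fun_prop

end

theorem ms_ : StmtMS := by
  intro E _ _ _ B B0 R e ℓ g f hB hFar hSm hPull hTr hf hfar hle hmono x0
  borelize E
  haveI : ProperSpace E := FiniteDimensional.proper ℝ E
  let μ : Measure E := Measure.addHaar
  have hinf : (∞ : WithTop ℕ∞) ≠ 0 := by simp
  have hBc : Continuous B := hB.smooth.continuous
  have hDc : Continuous fun x => dens (B x) := dens_cont hBc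
  have hDpos : ∀ x, 0 < dens (B x) := fun x => dens_pos _ (hB.nondeg x)
  have hgd : Differentiable ℝ (fun x => g x) := hSm.1.differentiable hinf
  have hgc : Continuous fun x => g x := hSm.1.continuous
  set D0 := dens B0 with hD0
  have hDfar : ∀ x, R ≤ ‖x‖ → dens (B x) = D0 := by
    intro x hx
    rw [hFar x hx]
  obtain ⟨ρ, hρ1, hρ2⟩ : ∃ ρ : ℝ, R + ‖e‖ ≤ ρ ∧ ‖x0‖ < ρ :=
    ⟨max (R + ‖e‖) (‖x0‖ + 1), le_max_left _ _, lt_of_lt_of_le (by linarith) (le_max_right _ _)⟩
  have hRρ : R ≤ ρ := le_trans (by linarith [norm_nonneg e]) hρ1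
  set S := Metric.closedBall (0 : E) ρ with hS
  have himg : (fun x => g x) '' S = Metric.closedBall e ρ := by
    ext y
    simp only [Set.mem_image, hS, Metric.mem_closedBall, dist_eq_norm, sub_zero]
    constructor
    · rintro ⟨x, hx, rfl⟩
      by_cases h : R ≤ ‖x‖
      · rw [hTr x h]
        simpa using hx
      · by_contra hcon
        rw [not_le] at hcon
        have h1 : R ≤ ‖g x - e‖ := by linarith
        have h2 := hTr _ h1
        rw [sub_add_cancel] at h2
        have h3 := g.injective h2
        rw [h3] at hcon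
        linarith
    · intro hy
      refine ⟨g.symm y, ?_, by simp⟩
      by_contra hcon
      rw [not_le] at hcon
      have h1 : R ≤ ‖g.symm y‖ := by linarith
      have h2 := hTr _ h1
      rw [g.apply_symm_apply] at h2
      have h3 : g.symm y = y - e := eq_sub_of_add_eq h2.symm
      rw [h3] at hcon
      linarith
  have hmeas : MeasurableSet S := Metric.isClosed_closedBall.measurableSet
  have hint : ∀ (h : E → ℝ) (c : E), Continuous h → IntegrableOn h (Metric.closedBall c ρ) μ :=
    fun h c hh => hh.continuousOn.integrableOn_compact (isCompact_closedBall _ _)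
  -- change of variables
  have hcv : ∫ x in Metric.closedBall e ρ, f x * dens (B x) ∂μ
      = ∫ x in S, f (g x) * dens (B x) ∂μ := by
    rw [← himg, integral_image_eq_integral_abs_det_fderiv_smul μ hmeas
      (fun x _ => (hgd x).hasFDerivAt.hasFDerivWithinAt) g.injective.injOn]
    refine setIntegral_congr_fun hmeas fun x _ => ?_
    have h1 := dens_pull (B x) (B (g x)) (fderiv ℝ (fun x => g x) x) (fun u v => hPull x u v)
    simp only [smul_eq_mul]
    rw [← h1]
    ring
  have htr : ∫ x in Metric.closedBall e ρ, ℓ x * D0 ∂μ = ∫ x in S, ℓ x * D0 ∂μ := by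
    have h1 : (fun x : E => x + e) '' S = Metric.closedBall e ρ := by
      ext y
      simp only [Set.mem_image, hS, Metric.mem_closedBall, dist_eq_norm, sub_zero]
      constructor
      · rintro ⟨x, hx, rfl⟩
        simpa using hx
      · intro hy
        exact ⟨y - e, hy, by simp⟩
    have hder : ∀ x ∈ S, HasFDerivWithinAt (fun x : E => x + e) (ContinuousLinearMap.id ℝ E) S x :=
      fun x _ => ((hasFDerivAt_id x).add_const e).hasFDerivWithinAt
    rw [← h1, integral_image_eq_integral_abs_det_fderiv_smul μ hmeas hder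
      (add_left_injective e).injOn]
    refine setIntegral_congr_fun hmeas fun x _ => ?_
    have h2 : (ContinuousLinearMap.id ℝ E).det = 1 := by
      simp [ContinuousLinearMap.det]
    simp [h2, hle]
  have hdiff : ∀ c : E, Metric.closedBall (0 : E) R ⊆ Metric.closedBall c ρ →
      ∫ x in Metric.closedBall c ρ, (f x * dens (B x) - ℓ x * D0) ∂μ
        = ∫ x in Metric.closedBall (0 : E) R, (f x * dens (B x) - ℓ x * D0) ∂μ := by
    intro c hc
    refine setIntegral_eq_of_subset_of_forall_sdiff_eq_zero
      Metric.isClosed_closedBall.measurableSet hc ?_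
    intro x hx
    have h1 : R ≤ ‖x‖ := by
      have h2 := hx.2
      simp only [Metric.mem_closedBall, dist_zero_right, not_le] at h2
      exact h2.le
    rw [hfar x h1, hDfar x h1, sub_self]
  have hsub1 : Metric.closedBall (0 : E) R ⊆ Metric.closedBall e ρ := by
    intro x hx
    simp only [Metric.mem_closedBall, dist_zero_right] at hx
    rw [Metric.mem_closedBall, dist_eq_norm]
    linarith [norm_sub_le x e]
  have hsub2 : Metric.closedBall (0 : E) R ⊆ Metric.closedBall 0 ρ :=
    Metric.closedBall_subset_closedBall hRρ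
  have hc1 : Continuous fun x => f x * dens (B x) := hf.mul hDc
  have hc2 : Continuous fun x => ℓ x * D0 := ℓ.continuous.mul continuous_const
  have hc3 : Continuous fun x => f (g x) * dens (B x) := (hf.comp hgc).mul hDc
  have hz : ∫ x in S, (f x * dens (B x) - f (g x) * dens (B x)) ∂μ = 0 := by
    rw [integral_sub (hint _ _ hc1) (hint _ _ hc3), ← hcv]
    have h1 := hdiff e hsub1
    have h2 := hdiff 0 hsub2
    rw [integral_sub (hint _ _ hc1) (hint _ _ hc2)] at h1 h2
    linarith
  have hnn : ∀ x, 0 ≤ f x * dens (B x) - f (g x) * dens (B x) := by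
    intro x
    have h1 := hmono x
    have h2 := (hDpos x).le
    nlinarith
  have hae : (fun x => f x * dens (B x) - f (g x) * dens (B x)) =ᵐ[μ.restrict S] 0 := by
    rw [← setIntegral_eq_zero_iff_of_nonneg_ae (Eventually.of_forall hnn)
      (hint _ _ (hc1.sub hc3))]
    exact hz
  have hae2 : (fun x => f x * dens (B x) - f (g x) * dens (B x))
      =ᵐ[μ.restrict (Metric.ball (0 : E) ρ)] 0 :=
    ae_restrict_of_ae_restrict_of_subset Metric.ball_subset_closedBall hae
  have heq := Measure.eqOn_open_of_ae_eq hae2 Metric.isOpen_ball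
    (hc1.sub hc3).continuousOn continuousOn_const
  have hx : x0 ∈ Metric.ball (0 : E) ρ := by simpa using hρ2
  have h1 := heq hx
  simp only [Pi.zero_apply] at h1
  have h2 : (f x0 - f (g x0)) * dens (B x0) = 0 := by linarith
  rcases mul_eq_zero.1 h2 with h3 | h3
  · linarith
  · exact absurd h3 (hDpos x0).ne'

end Pool.Agent.Helper32.SY
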